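import Pool.Agent.W593.IR.Stm3

set_option autoImplicit false

namespace Pool.Agent.W43.IR

open Finset Pool.Agent.W593.IR

theorem ph42 (ρ : ℝ) : Ph 4 2 ρ = 1 - 3 / 4 * ρ ^ 4 - 2 * (1 - ρ) * ρ ^ 3 := by
  unfold Ph
  simp only [Finset.sum_range_succ, Finset.sum_range_zero]
  norm_num [Nat.choose]
  ring

theorem ph43 (ρ : ℝ) :
    Ph 4 3 ρ = 1 - 19 / 27 * ρ ^ 4 - 20 / 9 * (1 - ρ) * ρ ^ 3 - 2 * (1 - ρ) ^ 2 * ρ ^ 2 := by
  unfold Ph
  simp only [Finset.sum_range_succ, Finset.sum_range_zero]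
  norm_num [Nat.choose]
  ring

theorem ph4 : S_PH4 := by
  intro ρ h1 h2
  have hρ : 0 < ρ := by linarith
  rw [ph42, ph43]
  constructor
  · rcases le_total ρ (8 / 9) with h | h
    · refine le_trans (min_le_right _ _) ?_
      have key : 0 ≤ 1 - 3 / 8 * ρ - 31 / 16 * ρ ^ 2 + 319 / 256 * ρ ^ 3 := by
        nlinarith [mul_nonneg (sub_nonneg.mpr h) (sub_nonneg.mpr h1),
          mul_nonneg (mul_nonneg (sub_nonneg.mpr h) (sub_nonneg.mpr h1)) hρ.le, sq_nonneg ρ]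
      have := mul_nonneg hρ.le key
      nlinarith [this]
    · refine le_trans (min_le_left _ _) ?_
      have h3 : 0 ≤ ρ ^ 3 := by positivity
      nlinarith [mul_nonneg h3 (sub_nonneg.mpr h)]
  · rcases le_total ρ (893 / 1000) with h | h
    · refine le_trans (min_le_right _ _) ?_
      have key : 0 ≤ 1 - 19 / 8 * ρ + 265 / 144 * ρ ^ 2 - 3355 / 6912 * ρ ^ 3 := by
        nlinarith [mul_nonneg (sub_nonneg.mpr h) (sub_nonneg.mpr h1),
          mul_nonneg (mul_nonneg (sub_nonneg.mpr h) (sub_nonneg.mpr h1)) hρ.le, sq_nonneg ρ]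
      have := mul_nonneg hρ.le key
      nlinarith [this]
    · refine le_trans (min_le_left _ _) ?_
      have h3 : 0 ≤ ρ ^ 2 := by positivity
      have key : 2 * (1 - ρ) ^ 2 + 20 / 9 * (1 - ρ) * ρ ≤ 8 / 27 * ρ ^ 2 := by
        nlinarith [sub_nonneg.mpr h, sub_nonneg.mpr h2]
      nlinarith [mul_le_mul_of_nonneg_left key h3]

end Pool.Agent.W43.IR
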