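import Pool.Agent.W593.IR.Stm3

set_option autoImplicit false

namespace Pool.Agent.W43.IR

open Finset Pool.Agent.W593.IR

theorem tbn : S_TBN := by
  intro hseq k ρ hk hNB a b q htp
  have h := hNB _ _ (hseq k hk a b q htp)
  refine le_trans h (le_of_eq ?_)
  rw [← Finset.sum_range_reflect (fun r => (k.choose r : ℝ) * (1 - ρ) ^ (k - r) * ρ ^ r * Us a b q r)]
  refine Finset.sum_congr rfl fun j hj => ?_
  have hj' : j ≤ k := by
    have := Finset.mem_range.mp hj
    omega
  have e1 : k + 1 - 1 - j = k - j := by omega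
  have e2 : k - (k - j) = j := by omega
  simp only [e1, e2, Nat.choose_symm hj']

end Pool.Agent.W43.IR
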